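import Pool.Agent.helper37.ND.SpecP

/-! nd:BLI, Brauer's local integrality -/

set_option autoImplicit false

namespace Pool.Agent.ND

open Pool.Agent.helper58.DC Pool.Agent.DI Pool.Agent.GR

theorem BLI_fs {X : Type} [Fintype X] (S : Set X) [DecidablePred (· ∈ S)] (f : X → ℂ) :
    ∑ᶠ g ∈ S, f g = ∑ g, if g ∈ S then f g else 0 := by
  rw [finsum_mem_def, finsum_eq_sum_of_fintype]
  simp only [Set.indicator_apply]

theorem BLI_top {Γ : Type} [Group Γ] [Fintype Γ] (p : ℕ) (hp : p.Prime) (hPPT : PPT_stmt) (Φ : Γ → ℂ)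
    [DecidablePred (PReg p : Γ → Prop)] [DecidablePred (PEl p : Γ → Prop)] [DecidableEq Γ] :
    ∑ᶠ g : Γ, Φ g = ∑ y : Γ, if PReg p y then (∑ u : Γ, if PEl p u ∧ u * y = y * u then Φ (u * y) else 0) else 0 := by
  classical
  have h1 := hPPT p hp Γ ⊤ Φ
  rw [BLI_fs, BLI_fs] at h1
  have h2 : ∑ᶠ g : Γ, Φ g = ∑ g : Γ, Φ g := finsum_eq_sum_of_fintype _
  rw [h2]
  have h3 : ∑ g : Γ, Φ g = ∑ g : Γ, if g ∈ ((⊤ : Subgroup Γ) : Set Γ) then Φ g else 0 := by
    apply Finset.sum_congr rfl
    intro g _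
    rw [if_pos (show g ∈ ((⊤ : Subgroup Γ) : Set Γ) from Subgroup.mem_top g)]
  rw [h3, h1]
  have h4 : ∀ y : Γ, (if y ∈ {y : Γ | y ∈ (⊤ : Subgroup Γ) ∧ PEl p y} then
      ∑ᶠ v ∈ {v : Γ | v ∈ Cz ⊤ y ∧ PReg p v}, Φ (y * v) else 0) =
      ∑ v : Γ, if PReg p v ∧ PEl p y ∧ y * v = v * y then Φ (y * v) else 0 := by
    intro y
    by_cases hy : PEl p y
    · rw [if_pos (show y ∈ {y : Γ | y ∈ (⊤ : Subgroup Γ) ∧ PEl p y} from ⟨Subgroup.mem_top y, hy⟩), BLI_fs]
      apply Finset.sum_congr rfl
      intro v _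
      have hiff : v ∈ {v : Γ | v ∈ Cz ⊤ y ∧ PReg p v} ↔ (PReg p v ∧ PEl p y ∧ y * v = v * y) := by
        constructor
        · rintro ⟨hv, hr⟩
          refine ⟨hr, hy, ?_⟩
          have := (Subgroup.mem_inf.1 hv).2
          rw [Subgroup.mem_centralizer_iff] at this
          exact this y rfl
        · rintro ⟨hr, _, hv⟩
          refine ⟨Subgroup.mem_inf.2 ⟨Subgroup.mem_top v, ?_⟩, hr⟩
          rw [Subgroup.mem_centralizer_iff]
          intro h hh
          rw [Set.mem_singleton_iff] at hh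
          rw [hh]
          exact hv
      exact if_congr hiff rfl rfl
    · rw [if_neg (fun h => hy h.2)]
      symm
      apply Finset.sum_eq_zero
      intro v _
      rw [if_neg]
      rintro ⟨_, h, _⟩
      exact hy h
  rw [Finset.sum_congr rfl fun y _ => h4 y, Finset.sum_comm]
  apply Finset.sum_congr rfl
  intro v _
  by_cases hv : PReg p v
  · rw [if_pos hv]
    apply Finset.sum_congr rfl
    intro y _
    apply if_congr _ rfl rfl
    constructor
    · exact fun h => h.2
    · exact fun h => ⟨hv, h⟩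
  · rw [if_neg hv]
    apply Finset.sum_eq_zero
    intro y _
    rw [if_neg]
    exact fun h => hv h.1

theorem BLI_PEl_iff {Γ : Type} [Group Γ] (p : ℕ) (K : Subgroup Γ) (u : K) : PEl p u ↔ PEl p (u : Γ) := by
  unfold PEl
  constructor
  · rintro ⟨k, hk⟩
    refine ⟨k, ?_⟩
    have := congrArg (fun z : K => (z : Γ)) hk
    simpa using this
  · rintro ⟨k, hk⟩
    refine ⟨k, ?_⟩
    apply Subtype.ext
    simpa using hk

/-- sum over a subgroup as a type -/
theorem BLI_sub {Γ : Type} [Group Γ] [Fintype Γ] [DecidableEq Γ] (y : Γ) (g : Γ → ℂ) (P : Γ → Prop)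
    [DecidablePred P] :
    ∑ᶠ u ∈ {u : Subgroup.centralizer {y} | P (u : Γ)}, g (u : Γ) =
      ∑ u : Γ, if P u ∧ u * y = y * u then g u else 0 := by
  classical
  have h1 : ∑ᶠ u ∈ {u : Subgroup.centralizer {y} | P (u : Γ)}, g (u : Γ) =
      ∑ᶠ u ∈ {u : Γ | P u ∧ u * y = y * u}, g u := by
    have himg : ((fun u : Subgroup.centralizer {y} => (u : Γ)) '' {u : Subgroup.centralizer {y} | P (u : Γ)}) =
        {u : Γ | P u ∧ u * y = y * u} := by
      ext u
      constructor
      · rintro ⟨v, hv, rfl⟩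
        refine ⟨hv, ?_⟩
        have := v.2
        rw [Subgroup.mem_centralizer_iff] at this
        exact (this y rfl).symm
      · rintro ⟨hu, hc⟩
        refine ⟨⟨u, ?_⟩, hu, rfl⟩
        rw [Subgroup.mem_centralizer_iff]
        intro h hh
        rw [Set.mem_singleton_iff] at hh
        rw [hh]
        exact hc.symm
    rw [← himg]
    rw [finsum_mem_image]
    exact Set.injOn_of_injective Subtype.val_injective
  rw [h1, BLI_fs]
  apply Finset.sum_congr rfl
  intro u _
  exact if_congr Iff.rfl rfl rfl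

theorem BLI_cj {Γ : Type} [Group Γ] (p : ℕ) (g x : Γ) : PReg p (g * x * g⁻¹) ↔ PReg p x := by
  unfold PReg
  have : orderOf (g * x * g⁻¹) = orderOf x := by
    have h := (MulAut.conj g).orderOf_eq x
    rw [MulAut.conj_apply] at h
    exact h
  rw [this]

theorem BLI_ce {Γ : Type} [Group Γ] (p : ℕ) (g x : Γ) : PEl p (g * x * g⁻¹) ↔ PEl p x := by
  unfold PEl
  constructor
  · rintro ⟨k, hk⟩
    refine ⟨k, ?_⟩
    rw [conj_pow] at hk
    have := mul_eq_one_iff_eq_inv.1 hk
    rw [inv_inv] at this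
    exact mul_eq_left.1 this
  · rintro ⟨k, hk⟩
    refine ⟨k, ?_⟩
    rw [conj_pow, hk]
    simp

/-- the conjugation action on the `p`-regular elements -/
def BLI_act (p : ℕ) (Γ : Type) [Group Γ] : MulAction Γ {y : Γ // PReg p y} where
  smul g y := ⟨g * y.1 * g⁻¹, (BLI_cj p g y.1).2 y.2⟩
  one_smul y := by
    apply Subtype.ext
    change 1 * y.1 * 1⁻¹ = y.1
    simp
  mul_smul g h y := by
    apply Subtype.ext
    change (g * h) * y.1 * (g * h)⁻¹ = g * (h * y.1 * h⁻¹) * g⁻¹
    group

theorem BLI (hBLA : BLA_stmt) (hBLB : BLB_stmt) (hPPT : PPT_stmt) : BLI_stmt := by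
  classical
  intro p M hS Γ _ _ Φ N hcl hint hloc
  haveI : Fintype Γ := Fintype.ofFinite Γ
  rw [BLI_top p hS.pr hPPT Φ]
  letI : MulAction Γ {y : Γ // PReg p y} := BLI_act p Γ
  set F : Γ → ℂ := fun y => ∑ u : Γ, if PEl p u ∧ u * y = y * u then Φ (u * y) else 0 with hFdef
  have hFcl : ∀ g y : Γ, F (g * y * g⁻¹) = F y := by
    intro g y
    rw [hFdef]
    dsimp only
    symm
    refine Finset.sum_equiv (MulAut.conj g).toEquiv (by simp) ?_
    intro u _
    change _ = if PEl p (g * u * g⁻¹) ∧ (g * u * g⁻¹) * (g * y * g⁻¹) = (g * y * g⁻¹) * (g * u * g⁻¹) then Φ ((g * u * g⁻¹) * (g * y * g⁻¹)) else 0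
    have e1 : (g * u * g⁻¹) * (g * y * g⁻¹) = g * (u * y) * g⁻¹ := by group
    have e2 : (g * y * g⁻¹) * (g * u * g⁻¹) = g * (y * u) * g⁻¹ := by group
    rw [e1, e2, hcl, BLI_ce]
    apply if_congr _ rfl rfl
    constructor
    · rintro ⟨a, b⟩
      exact ⟨a, by rw [b]⟩
    · rintro ⟨a, b⟩
      refine ⟨a, ?_⟩
      have := mul_right_cancel b
      exact mul_left_cancel this
  have hw := hBLA p M hS Γ {y : Γ // PReg p y}
    (fun y => (Nat.card (Subgroup.centralizer {y.1}) : ℂ)⁻¹ * F y.1) ?_ ?_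
  · have hstab : ∀ x : {y : Γ // PReg p y}, Nat.card (MulAction.stabilizer Γ x) = Nat.card (Subgroup.centralizer {x.1}) := by
      intro x
      have : MulAction.stabilizer Γ x = Subgroup.centralizer {x.1} := by
        ext g
        rw [MulAction.mem_stabilizer_iff, Subgroup.mem_centralizer_iff]
        constructor
        · intro h z hz
          rw [Set.mem_singleton_iff] at hz
          subst hz
          have h' : g * x.1 * g⁻¹ = x.1 := congrArg Subtype.val h
          rw [mul_inv_eq_iff_eq_mul] at h'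
          exact h'.symm
        · intro h
          apply Subtype.ext
          change g * x.1 * g⁻¹ = x.1
          rw [mul_inv_eq_iff_eq_mul]
          exact (h x.1 rfl).symm
      rw [this]
    rw [finsum_eq_sum_of_fintype] at hw
    have hsum : ∑ x : {y : Γ // PReg p y}, (Nat.card (MulAction.stabilizer Γ x) : ℂ) *
        ((Nat.card (Subgroup.centralizer {x.1}) : ℂ)⁻¹ * F x.1) = ∑ y : Γ, if PReg p y then F y else 0 := by
      rw [← Finset.sum_filter]
      rw [Finset.sum_subtype (Finset.univ.filter (PReg p : Γ → Prop)) (p := (PReg p : Γ → Prop)) (by simp) F]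
      apply Finset.sum_congr rfl
      intro x _
      rw [hstab x, ← mul_assoc, mul_inv_cancel₀, one_mul]
      exact_mod_cast Nat.card_pos.ne'
    rw [hsum] at hw
    exact hw
  · intro g x
    change (Nat.card (Subgroup.centralizer {g * x.1 * g⁻¹}) : ℂ)⁻¹ * F (g * x.1 * g⁻¹) = _
    rw [hFcl]
    have hc : Nat.card (Subgroup.centralizer {g * x.1 * g⁻¹}) = Nat.card (Subgroup.centralizer {x.1}) := by
      have hm : Subgroup.centralizer {g * x.1 * g⁻¹} = (Subgroup.centralizer {x.1}).map (MulAut.conj g).toMonoidHom := by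
        ext z
        rw [Subgroup.mem_centralizer_iff, Subgroup.mem_map]
        constructor
        · intro h
          refine ⟨g⁻¹ * z * g, ?_, ?_⟩
          · rw [Subgroup.mem_centralizer_iff]
            intro t ht
            rw [Set.mem_singleton_iff] at ht
            subst ht
            have h' := h (g * x.1 * g⁻¹) rfl
            calc x.1 * (g⁻¹ * z * g) = g⁻¹ * (g * x.1 * g⁻¹ * z) * g := by group
              _ = g⁻¹ * (z * (g * x.1 * g⁻¹)) * g := by rw [h']
              _ = g⁻¹ * z * g * x.1 := by group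
          · change g * (g⁻¹ * z * g) * g⁻¹ = z
            group
        · rintro ⟨w, hw, rfl⟩ t ht
          rw [Set.mem_singleton_iff] at ht
          subst ht
          rw [Subgroup.mem_centralizer_iff] at hw
          have h' := hw x.1 rfl
          change g * x.1 * g⁻¹ * (g * w * g⁻¹) = g * w * g⁻¹ * (g * x.1 * g⁻¹)
          calc g * x.1 * g⁻¹ * (g * w * g⁻¹) = g * (x.1 * w) * g⁻¹ := by group
            _ = g * (w * x.1) * g⁻¹ := by rw [h']
            _ = g * w * g⁻¹ * (g * x.1 * g⁻¹) := by group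
      rw [hm]
      exact Subgroup.card_map_of_injective (MulAut.conj g).injective
    rw [hc]
  · intro x
    have h := hBLB p M hS (Subgroup.centralizer {x.1}) (fun u => Φ ((u : Γ) * x.1)) N ?_ ?_ ?_
    · have h2 : ∑ᶠ u ∈ {u : Subgroup.centralizer {x.1} | PEl p u}, Φ ((u : Γ) * x.1) = F x.1 := by
        have h3 := BLI_sub x.1 (fun u => Φ (u * x.1)) (PEl p : Γ → Prop)
        rw [hFdef]
        dsimp only
        rw [← h3]
        have : {u : Subgroup.centralizer {x.1} | PEl p u} = {u : Subgroup.centralizer {x.1} | PEl p (u : Γ)} := by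
          ext u
          exact BLI_PEl_iff p _ u
        rw [this]
      rw [h2] at h
      exact h
    · intro g h
      have hc : (h : Γ) * x.1 = x.1 * h := by
        have := h.2
        rw [Subgroup.mem_centralizer_iff] at this
        exact (this x.1 rfl).symm
      have e : ((h * g * h⁻¹ : Subgroup.centralizer {x.1}) : Γ) * x.1 = (h : Γ) * ((g : Γ) * x.1) * (h : Γ)⁻¹ := by
        have hc' : (h : Γ)⁻¹ * x.1 = x.1 * (h : Γ)⁻¹ := by
          rw [inv_mul_eq_iff_eq_mul, ← mul_assoc, hc, mul_assoc, mul_inv_cancel, mul_one]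
        calc ((h * g * h⁻¹ : Subgroup.centralizer {x.1}) : Γ) * x.1 = (h : Γ) * g * ((h : Γ)⁻¹ * x.1) := by
              push_cast
              group
          _ = (h : Γ) * ((g : Γ) * x.1) * (h : Γ)⁻¹ := by rw [hc']; group
      change Φ _ = Φ _
      rw [e, hcl]
    · intro g
      exact hint _
    · intro Q hQ
      have h4 := hloc x.1 x.2 (Q.map (Subgroup.subtype _)) (hQ.map _) ?_
      · have e1 : Nat.card (Q.map (Subgroup.subtype (Subgroup.centralizer {x.1}))) = Nat.card Q :=
          Subgroup.card_map_of_injective (Subgroup.subtype_injective _)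
        have e2 : ∑ᶠ u ∈ ((Q.map (Subgroup.subtype (Subgroup.centralizer {x.1})) : Subgroup Γ) : Set Γ), Φ (u * x.1) =
            ∑ᶠ u ∈ (Q : Set (Subgroup.centralizer {x.1})), Φ ((u : Γ) * x.1) := by
          rw [Subgroup.coe_map]
          rw [finsum_mem_image]
          · rfl
          · exact Set.injOn_of_injective (Subgroup.subtype_injective _)
        rw [e1, e2] at h4
        exact h4
      · rintro u ⟨v, _, rfl⟩
        have := v.2
        rw [Subgroup.mem_centralizer_iff] at this
        exact (this x.1 rfl).symm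

end Pool.Agent.ND
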